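import Pool.Agent.Q266.VG.Stm

/-! Project VG (helper266), job MAIN (helper184): all laws are in `V`. -/

set_option autoImplicit false

namespace Pool.Agent.Q184.VG

open Pool.Agent.Q266.VG
open scoped commutatorElement

lemma law_of_mem {v : F} (hv : v ∈ V) : Law2 v := fun φ => Subgroup.subset_closure ⟨v, hv, φ, rfl⟩

lemma law_mul_inv {w v : F} (hw : Law2 w) (hv : Law2 v) : Law2 (w * v⁻¹) := by
  intro φ
  rw [map_mul, map_inv]
  exact mul_mem (hw φ) (inv_mem (hv φ))

lemma met_mul {w v : F} (hw : MetLaw w) (hv : MetLaw v) : MetLaw (w * v) := by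
  intro A B hA hB φ
  rw [map_mul, map_mul, hw A B hA hB φ, hv A B hA hB φ, mul_one]

lemma met_inv {w : F} (hw : MetLaw w) : MetLaw w⁻¹ := by
  intro A B hA hB φ
  rw [map_inv, map_inv, hw A B hA hB φ, inv_one]

instance U_normal : U.Normal := by
  have h1 : (Subgroup.closure (Set.range fun x : F => x ^ 7)).Normal := by
    refine ⟨fun n hn g => ?_⟩
    refine Subgroup.closure_induction (p := fun n _ => g * n * g⁻¹ ∈ Subgroup.closure
      (Set.range fun x : F => x ^ 7)) ?_ ?_ ?_ ?_ hn
    · rintro _ ⟨x, rfl⟩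
      refine Subgroup.subset_closure ⟨g * x * g⁻¹, ?_⟩
      exact conj_pow
    · rw [mul_one, mul_inv_cancel]
      exact one_mem _
    · intro a b _ _ ha hb
      have : g * (a * b) * g⁻¹ = (g * a * g⁻¹) * (g * b * g⁻¹) := by group
      rw [this]
      exact mul_mem ha hb
    · intro a _ ha
      have : g * a⁻¹ * g⁻¹ = (g * a * g⁻¹)⁻¹ := by group
      rw [this]
      exact inv_mem ha
  unfold U
  infer_instance

instance V_normal : V.Normal := by
  unfold V
  infer_instance

theorem main : S_UNI → S_KSIX → S_LAWEV → S_MET → S_LONE → S_STEPA → S_STEPBC → S_MAIN := by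
  intro _ _ hL hM hO hA hBC w hw
  have hmet : ∀ w : F, Law2 w → MetLaw w := fun w hw A B hA' hB' φ =>
    hL aA bA isN_aA isN_bA A B hA' hB' w hw φ
  have hmetD : ∀ w ∈ D2 F, MetLaw w := by
    intro w hw A B hA' hB' φ
    refine hM A B hA' hB' (φ w) ?_
    exact (map_derivedSeries_le_derivedSeries φ 2) (Subgroup.mem_map_of_mem φ hw)
  have key : ∀ n ≤ 4, w ∈ (D2 F ⊔ V) ⊔ gam F (n + 1) := by
    intro n
    induction n with
    | zero =>
      intro _
      exact Subgroup.mem_sup_right (hO w hw)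
    | succ n ih =>
      intro hn
      obtain ⟨k, hk, g, hg, hkg⟩ := Subgroup.mem_sup_of_normal_right.1 (ih (by omega))
      obtain ⟨d, hd, v, hv, hdv⟩ := Subgroup.mem_sup_of_normal_right.1 hk
      have hkm : MetLaw k := by
        rw [← hdv]
        exact met_mul (hmetD d hd) (hmet v (law_of_mem hv))
      have hgm : MetLaw g := by
        have h1 : g = k⁻¹ * w := by rw [← hkg]; group
        rw [h1]
        exact met_mul (met_inv hkm) (hmet w hw)
      have h2 := hA n (by omega) g hg hgm
      rw [← sup_assoc] at h2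
      rw [← hkg]
      exact mul_mem (Subgroup.mem_sup_left hk) h2
  have h1 := key 4 le_rfl
  have h2 : gam F (4 + 1) ≤ V := by
    have h3 : gam F 4 ≤ U := by
      unfold U
      exact le_sup_right.trans le_sup_right
    exact Subgroup.commutator_mono h3 le_rfl
  have h3 : w ∈ D2 F ⊔ V := by
    have h4 : (D2 F ⊔ V) ⊔ gam F (4 + 1) ≤ D2 F ⊔ V := sup_le le_rfl (h2.trans le_sup_right)
    exact h4 h1
  obtain ⟨d, hd, v, hv, hdv⟩ := Subgroup.mem_sup_of_normal_right.1 h3
  have h4 : d = w * v⁻¹ := by rw [← hdv]; group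
  have h5 : Law2 d := by
    rw [h4]
    exact law_mul_inv hw (law_of_mem hv)
  rw [← hdv]
  exact mul_mem (hBC d hd h5) hv

end Pool.Agent.Q184.VG
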