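import Pool.Agent.Q266.VG.Stm

/-! Project VG (helper266), job NEG (helper184): the part of class `4` is not generated by its free
group of rank two. -/

set_option autoImplicit false

namespace Pool.Agent.Q184.VG

open Pool.Agent.Q266.VG
open scoped commutatorElement

/-- commutator of two elementary unipotent elements -/
lemma comm_unit {R : Type} [Ring R] (g h k : Rˣ) (a b c : R) (hg : (g : R) = 1 + a)
    (hh : (h : R) = 1 + b) (hk : (k : R) = 1 + c) (hab : a * b = c) (hba : b * a = 0)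
    (hca : c * a = 0) (hcb : c * b = 0) : ⁅g, h⁆ = k := by
  have h1 : g * h = k * h * g := by
    refine Units.ext ?_
    rw [Units.val_mul, Units.val_mul, Units.val_mul, hg, hh, hk]
    have h2 : (1 + c) * (1 + b) = 1 + b + c := by
      have h5 : (1 + c) * (1 + b) = 1 + b + c + c * b := by noncomm_ring
      rw [h5, hcb, add_zero]
    rw [h2]
    have h3 : (1 + a) * (1 + b) = 1 + a + b + c := by
      have h5 : (1 + a) * (1 + b) = 1 + a + b + a * b := by noncomm_ring
      rw [h5, hab]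
    have h4 : (1 + b + c) * (1 + a) = 1 + a + b + c := by
      have h5 : (1 + b + c) * (1 + a) = 1 + a + b + c + b * a + c * a := by noncomm_ring
      rw [h5, hba, hca, add_zero, add_zero]
    rw [h3, h4]
  rw [commutatorElement_def, h1]
  group

/-- the element `c = ⁅x, y⁆` -/
def c0 : F2 := ⁅(FreeGroup.of 0 : F2), (FreeGroup.of 1 : F2)⁆

/-- `⟨c⟩ γ_3` -/
def K : Subgroup F2 := Subgroup.zpowers c0 ⊔ gam F2 2

lemma c0_mem : c0 ∈ gam F2 1 := by
  show ⁅(FreeGroup.of 0 : F2), (FreeGroup.of 1 : F2)⁆ ∈ (⊤ : Subgroup F2).lowerCentralSeries 1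
  rw [Subgroup.lowerCentralSeries_succ]
  exact Subgroup.commutator_mem_commutator (Subgroup.mem_top _) (Subgroup.mem_top _)

lemma K_le : K ≤ gam F2 1 := by
  unfold K
  refine sup_le ?_ (Subgroup.lowerCentralSeries_antitone _ (by norm_num))
  rw [Subgroup.zpowers_le]
  exact c0_mem

lemma K_normal : K.Normal := by
  refine ⟨fun n hn g => ?_⟩
  have h1 : g * n * g⁻¹ = ⁅n, g⁆⁻¹ * n := by
    rw [commutatorElement_def]
    group
  rw [h1]
  refine mul_mem (inv_mem ?_) hn
  have h2 : ⁅n, g⁆ ∈ gam F2 2 := by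
    show ⁅n, g⁆ ∈ (⊤ : Subgroup F2).lowerCentralSeries 2
    rw [Subgroup.lowerCentralSeries_succ]
    exact Subgroup.commutator_mem_commutator (K_le hn) (Subgroup.mem_top _)
  exact Subgroup.mem_sup_right h2

/-- commutators modulo a normal subgroup -/
lemma comm_mem_iff {G : Type} [Group G] (N : Subgroup G) [N.Normal] (g h : G) :
    ⁅g, h⁆ ∈ N ↔ Commute (QuotientGroup.mk g : G ⧸ N) (QuotientGroup.mk h) := by
  rw [← commutatorElement_eq_one_iff_commute, ← QuotientGroup.eq_one_iff]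
  rfl

lemma comm_K (g h : F2) : ⁅g, h⁆ ∈ K := by
  have hK := K_normal
  rw [comm_mem_iff]
  have h0 : ∀ i j : Fin 2, Commute (QuotientGroup.mk (FreeGroup.of i) : F2 ⧸ K)
      (QuotientGroup.mk (FreeGroup.of j)) := by
    have h1 : Commute (QuotientGroup.mk (FreeGroup.of 0) : F2 ⧸ K)
        (QuotientGroup.mk (FreeGroup.of 1)) := by
      rw [← comm_mem_iff]
      exact Subgroup.mem_sup_left (Subgroup.mem_zpowers _)
    intro i j
    fin_cases i <;> fin_cases j
    · exact Commute.refl _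
    · exact h1
    · exact h1.symm
    · exact Commute.refl _
  have h1 : ∀ (j : Fin 2) (g : F2), Commute (QuotientGroup.mk g : F2 ⧸ K)
      (QuotientGroup.mk (FreeGroup.of j)) := by
    intro j g
    induction g using FreeGroup.induction_on with
    | C1 => exact Commute.one_left _
    | of i => exact h0 i j
    | inv_of i _ => exact (h0 i j).inv_left
    | mul x y hx hy => exact hx.mul_left hy
  induction h using FreeGroup.induction_on with
  | C1 => exact Commute.one_right _
  | of j => exact h1 j g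
  | inv_of j _ => exact (h1 j g).inv_right
  | mul x y hx hy => exact hx.mul_right hy

lemma comm_comm (hLCS : S_LCS) (x y z t : F2) : ⁅⁅x, y⁆, ⁅z, t⁆⁆ ∈ gam F2 4 := by
  obtain ⟨a, ha, u, hu, h1⟩ := Subgroup.mem_sup_of_normal_right.1 (comm_K x y)
  obtain ⟨b, hb, v, hv, h2⟩ := Subgroup.mem_sup_of_normal_right.1 (comm_K z t)
  obtain ⟨i, rfl⟩ := Subgroup.mem_zpowers_iff.1 ha
  obtain ⟨j, rfl⟩ := Subgroup.mem_zpowers_iff.1 hb
  rw [← h1, ← h2]
  have hcv : ∀ v ∈ gam F2 2, Commute (QuotientGroup.mk c0 : F2 ⧸ gam F2 4)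
      (QuotientGroup.mk v) := by
    intro v hv
    rw [← comm_mem_iff]
    have h3 := hLCS F2 1 2
    exact h3 (Subgroup.commutator_mem_commutator c0_mem hv)
  have huv : ∀ u ∈ gam F2 2, ∀ v ∈ gam F2 2, Commute (QuotientGroup.mk u : F2 ⧸ gam F2 4)
      (QuotientGroup.mk v) := by
    intro u hu v hv
    rw [← comm_mem_iff]
    have h3 := hLCS F2 2 2
    have h4 : gam F2 (2 + 2 + 1) ≤ gam F2 4 :=
      Subgroup.lowerCentralSeries_antitone _ (by norm_num)
    exact h4 (h3 (Subgroup.commutator_mem_commutator hu hv))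
  rw [comm_mem_iff]
  have e1 : (QuotientGroup.mk (c0 ^ i * u) : F2 ⧸ gam F2 4) =
      (QuotientGroup.mk c0) ^ i * QuotientGroup.mk u := rfl
  have e2 : (QuotientGroup.mk (c0 ^ j * v) : F2 ⧸ gam F2 4) =
      (QuotientGroup.mk c0) ^ j * QuotientGroup.mk v := rfl
  rw [e1, e2]
  refine Commute.mul_left (Commute.mul_right ?_ ?_) (Commute.mul_right ?_ ?_)
  · exact ((Commute.refl _).zpow_left i).zpow_right j
  · exact (hcv v hv).zpow_left i
  · exact (hcv u hu).symm.zpow_right j
  · exact huv u hu v hv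

/-- a projection `F → F2` with a section -/
noncomputable def psi : F →* F2 :=
  FreeGroup.lift fun k => if k = 0 then FreeGroup.of 0 else if k = 1 then FreeGroup.of 1 else 1

/-- the section -/
noncomputable def sec : F2 →* F := FreeGroup.lift fun i => FreeGroup.of (i : ℕ)

lemma psi_sec (y : F2) : psi (sec y) = y := by
  have h : psi.comp sec = MonoidHom.id F2 := by
    refine FreeGroup.ext_hom _ _ fun i => ?_
    fin_cases i <;> simp [psi, sec]
  exact DFunLike.congr_fun h y

lemma gam_le_verbal (W : Subgroup F) (hW : gam F 4 ≤ W) : gam F2 4 ≤ verbal W F2 := by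
  intro y hy
  have h1 : sec y ∈ gam F 4 := by
    have h2 : (gam F2 4).map sec ≤ gam F 4 := by
      show ((⊤ : Subgroup F2).lowerCentralSeries 4).map sec ≤ (⊤ : Subgroup F).lowerCentralSeries 4
      rw [Subgroup.map_lowerCentralSeries]
      exact Subgroup.lowerCentralSeries_mono 4 le_top
    exact h2 (Subgroup.mem_map_of_mem sec hy)
  exact Subgroup.subset_closure ⟨sec y, hW h1, psi, psi_sec y⟩

/-- matrix units -/
abbrev eu (i j : Fin 5) : Mat 5 := Matrix.single i j 1

lemma isN_eu {i j : Fin 5} (h : (i : ℕ) < j) : IsN 5 1 (eu i j) := by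
  intro i' j' hij
  show Matrix.single i j (1 : ZMod 7) i' j' = 0
  rw [Matrix.single_apply, if_neg]
  rintro ⟨rfl, rfl⟩
  omega

theorem neg : S_UNI → S_LEAD → S_KFIVE → S_LCS → S_NEG := by
  intro hU _ hK hLCS
  obtain ⟨hU1, -, hU3, -⟩ := hU
  obtain ⟨g0, h0⟩ := hU1 5 (eu 0 1) (isN_eu (by decide))
  obtain ⟨g1, h1⟩ := hU1 5 (eu 1 2) (isN_eu (by decide))
  obtain ⟨g2, h2⟩ := hU1 5 (eu 2 3) (isN_eu (by decide))
  obtain ⟨g3, h3⟩ := hU1 5 (eu 3 4) (isN_eu (by decide))
  obtain ⟨k1, hk1⟩ := hU1 5 (eu 0 2) (isN_eu (by decide))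
  obtain ⟨k2, hk2⟩ := hU1 5 (eu 2 4) (isN_eu (by decide))
  obtain ⟨k3, hk3⟩ := hU1 5 (eu 0 4) (isN_eu (by decide))
  have e0 : ∀ i j k l : Fin 5, j ≠ k → eu i j * eu k l = 0 := fun i j k l h =>
    Matrix.single_mul_single_of_ne 1 i j k h 1
  have e1 : ∀ i j k : Fin 5, eu i j * eu j k = eu i k := fun i j k => by
    rw [Matrix.single_mul_single_same, one_mul]
  refine ⟨⁅⁅FreeGroup.of 0, FreeGroup.of 1⁆, ⁅FreeGroup.of 2, FreeGroup.of 3⁆⁆, fun φ => ?_, ?_⟩
  · rw [map_commutatorElement, map_commutatorElement, map_commutatorElement]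
    exact gam_le_verbal _ le_sup_left (comm_comm hLCS _ _ _ _)
  · intro hw
    let ρ : F →* (Mat 5)ˣ := FreeGroup.lift fun k : ℕ =>
      if k = 0 then g0 else if k = 1 then g1 else if k = 2 then g2 else if k = 3 then g3 else 1
    have r0 : ρ (FreeGroup.of 0) = g0 := by simp [ρ]
    have r1 : ρ (FreeGroup.of 1) = g1 := by simp [ρ]
    have r2 : ρ (FreeGroup.of 2) = g2 := by simp [ρ]
    have r3 : ρ (FreeGroup.of 3) = g3 := by simp [ρ]
    have hρ : ∀ w, IsN 5 1 ((ρ w : Mat 5) - 1) := by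
      refine hU3 ℕ 5 ρ fun k => ?_
      have hk : ρ (FreeGroup.of k) =
          if k = 0 then g0 else if k = 1 then g1 else if k = 2 then g2 else if k = 3 then g3
          else 1 := by simp [ρ]
      rw [hk]
      split_ifs
      · rw [h0, add_sub_cancel_left]; exact isN_eu (by decide)
      · rw [h1, add_sub_cancel_left]; exact isN_eu (by decide)
      · rw [h2, add_sub_cancel_left]; exact isN_eu (by decide)
      · rw [h3, add_sub_cancel_left]; exact isN_eu (by decide)
      · rw [Units.val_one, sub_self]; exact IsN.zero 5 1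
    have hval := hK ρ hρ _ hw
    rw [map_commutatorElement, map_commutatorElement, map_commutatorElement, r0, r1, r2, r3,
      comm_unit g0 g1 k1 _ _ _ h0 h1 hk1 (e1 _ _ _) (e0 _ _ _ _ (by decide))
        (e0 _ _ _ _ (by decide)) (e0 _ _ _ _ (by decide)),
      comm_unit g2 g3 k2 _ _ _ h2 h3 hk2 (e1 _ _ _) (e0 _ _ _ _ (by decide))
        (e0 _ _ _ _ (by decide)) (e0 _ _ _ _ (by decide)),
      comm_unit k1 k2 k3 _ _ _ hk1 hk2 hk3 (e1 _ _ _) (e0 _ _ _ _ (by decide))
        (e0 _ _ _ _ (by decide)) (e0 _ _ _ _ (by decide))] at hval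
    have h8 : (1 : Mat 5) 0 4 = 0 := Matrix.one_apply_ne (by decide)
    have h5 : (k3 : Mat 5) 0 4 = 1 := by
      have h7 : (eu 0 4 : Mat 5) 0 4 = 1 := Matrix.single_apply_same _ _ _
      rw [hk3]
      show (1 : Mat 5) 0 4 + (eu 0 4 : Mat 5) 0 4 = 1
      rw [h7, h8, zero_add]
    rw [hval, Units.val_one, h8] at h5
    exact absurd h5 (by decide)

end Pool.Agent.Q184.VG
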